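import Pool.Agent.Y248.FB.Stm

/-! Project FB (helper248), task HLS. -/

set_option autoImplicit false

namespace Pool.Agent.Y287.FB

open MeasureTheory Set Metric Filter
open scoped ENNReal Topology
open Pool.Agent.H789R2.FR (E)
open Pool.Agent.Y248.FB

theorem locFin {n : ℕ} {α : ℝ} {μ : Measure (E n)} (h : Dim α μ) : IsLocallyFiniteMeasure μ := by
  refine ⟨fun x => ⟨closedBall x 1, closedBall_mem_nhds x one_pos, ?_⟩⟩
  exact (h x 1 le_rfl).trans_lt ENNReal.ofReal_lt_top

theorem setlint {n : ℕ} (μ : Measure (E n)) (h : E n → ℝ≥0∞) (r : ℝ) (x : E n) :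
    ∫⁻ y in closedBall x r, h y ∂μ =
      ∫⁻ y, ({q : E n × E n | dist q.2 q.1 ≤ r}.indicator (fun q => h q.2)) (x, y) ∂μ := by
  rw [← lintegral_indicator measurableSet_closedBall]
  congr 1

theorem meas_ind {n : ℕ} {h : E n → ℝ≥0∞} (hh : Measurable h) (r : ℝ) :
    Measurable ({q : E n × E n | dist q.2 q.1 ≤ r}.indicator (fun q => h q.2)) := by
  apply Measurable.indicator (hh.comp measurable_snd)
  exact measurableSet_le (measurable_snd.dist measurable_fst) measurable_const

theorem fub {n : ℕ} {α : ℝ} {μ : Measure (E n)} (hμ : Dim α μ) {h : E n → ℝ≥0∞}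
    (hh : Measurable h) {r : ℝ} (hr : 1 ≤ r) :
    ∫⁻ x, ∫⁻ y in closedBall x r, h y ∂μ ∂μ ≤ ENNReal.ofReal (r ^ α) * ∫⁻ y, h y ∂μ := by
  have := locFin hμ
  simp_rw [setlint μ h r]
  rw [lintegral_lintegral_swap
    (f := fun x y => ({q : E n × E n | dist q.2 q.1 ≤ r}.indicator (fun q => h q.2)) (x, y))
    (meas_ind hh r).aemeasurable, ← lintegral_const_mul _ hh]
  apply lintegral_mono
  intro y
  show ∫⁻ x, ({q : E n × E n | dist q.2 q.1 ≤ r}.indicator (fun q => h q.2)) (x, y) ∂μ ≤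
    ENNReal.ofReal (r ^ α) * h y
  have h1 : ∀ x, ({q : E n × E n | dist q.2 q.1 ≤ r}.indicator (fun q => h q.2)) (x, y) =
      (closedBall y r).indicator (fun _ => h y) x := by
    intro x
    by_cases hxy : dist y x ≤ r
    · rw [indicator_of_mem (by exact hxy), indicator_of_mem (by rw [mem_closedBall, dist_comm]; exact hxy)]
    · rw [indicator_of_notMem (by exact hxy),
        indicator_of_notMem (by rw [mem_closedBall, dist_comm]; exact hxy)]
  simp_rw [h1]
  rw [lintegral_indicator measurableSet_closedBall, setLIntegral_const, mul_comm]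
  exact mul_le_mul_left (hμ y r hr) _

theorem t_hls (n : ℕ) : S_HLS n := by
  intro α p hα hp μ hμ g hg r hr
  have := locFin hμ
  have hr0 : 0 < r := by linarith
  have hp0 : 0 < p := by linarith
  have hp1 : 0 < p - 1 := by linarith
  set s := p / (p - 1) with hs
  have hs0 : 0 < s := by positivity
  have hsp : s.HolderConjugate p := by
    rw [Real.holderConjugate_iff]
    refine ⟨?_, ?_⟩
    · rw [hs, lt_div_iff₀ hp1]; linarith
    · rw [hs]; field_simp; ring
  set G := ∫⁻ x, g x ^ s ∂μ with hG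
  set A : E n → ℝ≥0∞ := fun x => ∫⁻ y in closedBall x r, g y ∂μ with hA
  have hAm : Measurable A := by
    have : A = fun x => ∫⁻ y, ({q : E n × E n | dist q.2 q.1 ≤ r}.indicator (fun q => g q.2)) (x, y) ∂μ := by
      funext x; exact setlint μ g r x
    rw [this]
    exact (meas_ind hg r).lintegral_prod_right'
  have hgs : Measurable (fun x => g x ^ s) := hg.pow_const s
  -- pointwise bound
  have hpt : ∀ x, A x ^ p ≤ ENNReal.ofReal (r ^ α) * (G ^ (p - 2) * ∫⁻ y in closedBall x r, g y ^ s ∂μ) := by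
    intro x
    have h1 : A x ≤ (∫⁻ y in closedBall x r, g y ^ s ∂μ) ^ (1 / s) *
        (∫⁻ _y in closedBall x r, (1 : ℝ≥0∞) ^ p ∂μ) ^ (1 / p) := by
      have := ENNReal.lintegral_mul_le_Lp_mul_Lq (μ.restrict (closedBall x r)) hsp
        hg.aemeasurable (measurable_const (a := (1 : ℝ≥0∞))).aemeasurable
      simpa using this
    have h2 : (∫⁻ _y in closedBall x r, (1 : ℝ≥0∞) ^ p ∂μ) ≤ ENNReal.ofReal (r ^ α) := by
      simp only [ENNReal.one_rpow, lintegral_const, Measure.restrict_apply_univ, one_mul]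
      exact hμ x r hr
    have h3 : A x ^ p ≤ (∫⁻ y in closedBall x r, g y ^ s ∂μ) ^ (p - 1) * ENNReal.ofReal (r ^ α) := by
      refine (ENNReal.rpow_le_rpow h1 hp0.le).trans ?_
      rw [ENNReal.mul_rpow_of_nonneg _ _ hp0.le, ← ENNReal.rpow_mul, ← ENNReal.rpow_mul]
      have e1 : 1 / s * p = p - 1 := by rw [hs]; field_simp
      have e2 : 1 / p * p = 1 := by field_simp
      rw [e1, e2, ENNReal.rpow_one]
      gcongr
    refine h3.trans ?_
    rw [mul_comm]
    gcongr
    have e3 : p - 1 = (p - 2) + 1 := by ring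
    rw [e3, ENNReal.rpow_add_of_nonneg _ _ (by linarith) zero_le_one, ENNReal.rpow_one]
    gcongr
    exact setLIntegral_le_lintegral _ _
  have hAp : ∫⁻ x, A x ^ p ∂μ ≤ ENNReal.ofReal (r ^ (2 * α)) * G ^ (p - 1) := by
    have hinner : Measurable (fun x => ∫⁻ y in closedBall x r, g y ^ s ∂μ) := by
      have : (fun x => ∫⁻ y in closedBall x r, g y ^ s ∂μ) = fun x => ∫⁻ y,
          ({q : E n × E n | dist q.2 q.1 ≤ r}.indicator (fun q => (fun z => g z ^ s) q.2)) (x, y) ∂μ := by
        funext x; exact setlint μ (fun z => g z ^ s) r x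
      rw [this]
      exact (meas_ind hgs r).lintegral_prod_right'
    calc ∫⁻ x, A x ^ p ∂μ
        ≤ ∫⁻ x, ENNReal.ofReal (r ^ α) * (G ^ (p - 2) * ∫⁻ y in closedBall x r, g y ^ s ∂μ) ∂μ :=
          lintegral_mono hpt
      _ = ENNReal.ofReal (r ^ α) * (G ^ (p - 2) * ∫⁻ x, ∫⁻ y in closedBall x r, g y ^ s ∂μ ∂μ) := by
          rw [lintegral_const_mul _ (hinner.const_mul _), lintegral_const_mul _ hinner]
      _ ≤ ENNReal.ofReal (r ^ α) * (G ^ (p - 2) * (ENNReal.ofReal (r ^ α) * G)) := by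
          gcongr
          exact fub hμ hgs hr
      _ = (ENNReal.ofReal (r ^ α) * ENNReal.ofReal (r ^ α)) * (G ^ (p - 2) * G ^ (1 : ℝ)) := by
          rw [ENNReal.rpow_one]; ring
      _ = ENNReal.ofReal (r ^ (2 * α)) * G ^ (p - 1) := by
          rw [← ENNReal.ofReal_mul (by positivity), ← Real.rpow_add hr0,
            ← ENNReal.rpow_add_of_nonneg _ _ (by linarith) zero_le_one]
          congr 2
          · congr 1; ring
          · ring
  have hmain : ∫⁻ x, g x * A x ∂μ ≤ G ^ (1 / s) * (∫⁻ x, A x ^ p ∂μ) ^ (1 / p) := by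
    have := ENNReal.lintegral_mul_le_Lp_mul_Lq μ hsp hg.aemeasurable hAm.aemeasurable
    simpa using this
  have hlhs : ∫⁻ x, ∫⁻ y in closedBall x r, g x * g y ∂μ ∂μ = ∫⁻ x, g x * A x ∂μ := by
    apply lintegral_congr
    intro x
    rw [lintegral_const_mul _ hg]
  rw [hlhs]
  refine hmain.trans ?_
  calc G ^ (1 / s) * (∫⁻ x, A x ^ p ∂μ) ^ (1 / p)
      ≤ G ^ (1 / s) * (ENNReal.ofReal (r ^ (2 * α)) * G ^ (p - 1)) ^ (1 / p) := by
        gcongr
    _ = ENNReal.ofReal (r ^ (2 * α / p)) * G ^ (2 * (p - 1) / p) := by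
        rw [ENNReal.mul_rpow_of_nonneg _ _ (by positivity),
          ENNReal.ofReal_rpow_of_nonneg (by positivity) (by positivity), ← Real.rpow_mul hr0.le,
          ← ENNReal.rpow_mul, mul_left_comm, ← ENNReal.rpow_add_of_nonneg _ _ (by positivity)
            (by positivity)]
        congr 2
        · congr 1; ring
        · rw [hs]; field_simp; ring

end Pool.Agent.Y287.FB
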